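import Mathlib

set_option autoImplicit false

open Set Topology

universe u

namespace Pool.Agent.Results.MP_70096d_gt.CompatibleFails

/-- A `T₀` space is well-filtered if, for every (nonempty) filtered family of compact saturated
sets and every open set `U` containing the intersection of the family, some member of the family is
contained in `U`. A set is saturated if it is an intersection of open sets. -/
def WellFiltered (X : Type u) [TopologicalSpace X] : Prop :=
  T0Space X ∧ ∀ 𝒦 : Set (Set X), 𝒦.Nonempty → DirectedOn (· ⊇ ·) 𝒦 →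
    (∀ K ∈ 𝒦, IsCompact K ∧ ∃ 𝒰 : Set (Set X), (∀ U ∈ 𝒰, IsOpen U) ∧ K = ⋂₀ 𝒰) →
    ∀ U : Set X, IsOpen U → ⋂₀ 𝒦 ⊆ U → ∃ K ∈ 𝒦, K ⊆ U

/-- `P` is directed complete: every nonempty directed subset has a least upper bound. -/
def IsDcpo (P : Type u) [PartialOrder P] : Prop :=
  ∀ d : Set P, d.Nonempty → DirectedOn (· ≤ ·) d → ∃ x : P, IsLUB d x

section sober

variable {X : Type u} [TopologicalSpace X]

/-- minimal closed sets meeting all members of a family of compact sets -/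
theorem exists_minimal (𝒦 : Set (Set X))
    (hK : ∀ K ∈ 𝒦, IsCompact K) (C₀ : Set X) (hC₀ : IsClosed C₀) (hne : ∀ K ∈ 𝒦, (K ∩ C₀).Nonempty) :
    ∃ C ⊆ C₀, IsClosed C ∧ (∀ K ∈ 𝒦, (K ∩ C).Nonempty) ∧
      ∀ C' ⊆ C, IsClosed C' → (∀ K ∈ 𝒦, (K ∩ C').Nonempty) → C ⊆ C' := by
  obtain ⟨C, hC1, hC2⟩ := zorn_superset_nonempty {C : Set X | IsClosed C ∧ ∀ K ∈ 𝒦, (K ∩ C).Nonempty}
    (by
      intro c hc hchain hcne
      refine ⟨⋂₀ c, ⟨isClosed_sInter fun s hs => (hc hs).1, ?_⟩, fun s hs => sInter_subset_of_mem hs⟩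
      intro K hKm
      by_contra hemp
      rw [not_nonempty_iff_eq_empty] at hemp
      have hcne' : Nonempty c := hcne.to_subtype
      have h1 : K ⊆ ⋃ s : c, (s.1)ᶜ := by
        intro x hx
        by_contra hcon
        have : x ∈ K ∩ ⋂₀ c := by
          refine ⟨hx, mem_sInter.2 fun s hs => ?_⟩
          by_contra hxs
          exact hcon (mem_iUnion.2 ⟨⟨s, hs⟩, hxs⟩)
        rw [hemp] at this
        exact this
      have hdir : Directed (· ⊆ ·) (fun s : c => (s.1)ᶜ) := by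
        intro s t
        rcases hchain.total s.2 t.2 with h | h
        · exact ⟨s, subset_rfl, compl_subset_compl.2 h⟩
        · exact ⟨t, compl_subset_compl.2 h, subset_rfl⟩
      obtain ⟨s, hs⟩ := (hK K hKm).elim_directed_cover _ (fun s : c => (hc s.2).1.isOpen_compl) h1 hdir
      obtain ⟨x, hx, hxs⟩ := (hc s.2).2 K hKm
      exact hs hx hxs) C₀ ⟨hC₀, hne⟩
  refine ⟨C, hC1, hC2.1.1, hC2.1.2, ?_⟩
  intro C' hC' hcl hm
  exact hC2.2 ⟨hcl, hm⟩ hC'

/-- sober spaces are well-filtered -/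
theorem wellFiltered_of_sober [T0Space X] [QuasiSober X] : WellFiltered X := by
  refine ⟨inferInstance, ?_⟩
  intro 𝒦 hne hdir hK U hU hsub
  by_contra hcon
  push Not at hcon
  obtain ⟨C, hCU, hC, hCm, hmin⟩ := exists_minimal 𝒦 (fun K h => (hK K h).1) Uᶜ hU.isClosed_compl (by
    intro K hKm
    obtain ⟨x, hx, hxU⟩ := not_subset.1 (hcon K hKm)
    exact ⟨x, hx, hxU⟩)
  have hirr : IsIrreducible C := by
    obtain ⟨K₀, hK₀⟩ := hne
    refine ⟨(hCm K₀ hK₀).mono inter_subset_right, ?_⟩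
    rw [isPreirreducible_iff_isClosed_union_isClosed]
    intro A B hA hB hAB
    by_contra hcon2
    push Not at hcon2
    have h1 : ∃ K ∈ 𝒦, ¬ (K ∩ (C ∩ A)).Nonempty := by
      by_contra h
      push Not at h
      exact hcon2.1 ((hmin _ inter_subset_left (hC.inter hA) h).trans inter_subset_right)
    have h2 : ∃ K ∈ 𝒦, ¬ (K ∩ (C ∩ B)).Nonempty := by
      by_contra h
      push Not at h
      exact hcon2.2 ((hmin _ inter_subset_left (hC.inter hB) h).trans inter_subset_right)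
    obtain ⟨K1, hK1, h1⟩ := h1
    obtain ⟨K2, hK2, h2⟩ := h2
    obtain ⟨K3, hK3, h31, h32⟩ := hdir K1 hK1 K2 hK2
    obtain ⟨x, hx, hxC⟩ := hCm K3 hK3
    rcases hAB hxC with h | h
    · exact h1 ⟨x, h31 hx, hxC, h⟩
    · exact h2 ⟨x, h32 hx, hxC, h⟩
  obtain ⟨x, hx⟩ := QuasiSober.sober hirr hC
  have hxK : ∀ K ∈ 𝒦, x ∈ K := by
    intro K hKm
    obtain ⟨y, hy, hyC⟩ := hCm K hKm
    obtain ⟨-, 𝒰, h𝒰, rfl⟩ := hK K hKm
    rw [mem_sInter] at hy ⊢
    intro V hV
    exact (hx.specializes hyC).mem_open (h𝒰 V hV) (hy V hV)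
  have h1 : x ∈ C := hx.mem
  exact hCU h1 (hsub (mem_sInter.2 hxK))

end sober

/-- The poset: Johnstone's dcpo (the points `pt j k` and the limits `lim m` of the columns)
together with a greatest element `gr`. -/
inductive JT : Type
  | pt (j k : ℕ)
  | lim (m : ℕ)
  | gr

namespace JT

/-- the order -/
def le : JT → JT → Prop
  | pt j k, pt m n => j = m ∧ k ≤ n
  | pt j k, lim m => j = m ∨ k ≤ m
  | pt _ _, gr => True
  | lim _, pt _ _ => False
  | lim m, lim n => m = n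
  | lim _, gr => True
  | gr, pt _ _ => False
  | gr, lim _ => False
  | gr, gr => True

instance : PartialOrder JT where
  le := le
  le_refl x := by cases x <;> simp [le]
  le_trans x y z := by
    rcases x with ⟨j, k⟩ | m | _ <;> rcases y with ⟨j', k'⟩ | m' | _ <;>
      rcases z with ⟨j'', k''⟩ | m'' | _ <;> simp only [le] <;> intros <;> first | trivial | omega
  le_antisymm x y := by
    rcases x with ⟨j, k⟩ | m | _ <;> rcases y with ⟨j', k'⟩ | m' | _ <;> simp only [le] <;>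
      intro h1 h2 <;> first | trivial | (exfalso; trivial) | (congr 1 <;> omega)

theorem pt_pt {j k m n : ℕ} : pt j k ≤ pt m n ↔ j = m ∧ k ≤ n := Iff.rfl
theorem pt_lim {j k m : ℕ} : pt j k ≤ lim m ↔ j = m ∨ k ≤ m := Iff.rfl
theorem le_gr (x : JT) : x ≤ gr := by cases x <;> exact trivial
theorem lim_pt {j k m : ℕ} : ¬ lim m ≤ pt j k := fun h => h
theorem lim_lim {m n : ℕ} : lim m ≤ lim n ↔ m = n := Iff.rfl
theorem gr_pt {j k : ℕ} : ¬ gr ≤ pt j k := fun h => h
theorem gr_lim {m : ℕ} : ¬ gr ≤ lim m := fun h => h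
theorem gr_le {x : JT} (h : gr ≤ x) : x = gr := by
  rcases x with ⟨j, k⟩ | m | _
  · exact absurd h gr_pt
  · exact absurd h gr_lim
  · rfl

theorem lub_col (j : ℕ) (K : Set ℕ) (hK : ∀ n, ∃ k ∈ K, n < k) : IsLUB (pt j '' K) (lim j) := by
  constructor
  · rintro _ ⟨k, -, rfl⟩
    exact pt_lim.2 (Or.inl rfl)
  · intro u hu
    rcases u with ⟨m, n⟩ | m | _
    · obtain ⟨k, hk, hk'⟩ := hK n
      have := pt_pt.1 (hu ⟨k, hk, rfl⟩)
      omega
    · obtain ⟨k, hk, hk'⟩ := hK m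
      have := pt_lim.1 (hu ⟨k, hk, rfl⟩)
      exact lim_lim.2 (by omega)
    · exact le_gr _

theorem dir_col (j : ℕ) (K : Set ℕ) : DirectedOn (· ≤ ·) (pt j '' K) := by
  rintro _ ⟨k, hk, rfl⟩ _ ⟨k', hk', rfl⟩
  rcases le_total k k' with h | h
  · exact ⟨pt j k', ⟨k', hk', rfl⟩, pt_pt.2 ⟨rfl, h⟩, le_refl _⟩
  · exact ⟨pt j k, ⟨k, hk, rfl⟩, le_refl _, pt_pt.2 ⟨rfl, h⟩⟩

theorem dcpo : IsDcpo JT := by
  intro d hne hdir
  by_cases hgr : gr ∈ d
  · exact ⟨gr, fun x _ => le_gr x, fun u hu => hu hgr⟩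
  by_cases hlim : ∃ m, lim m ∈ d
  · obtain ⟨m, hm⟩ := hlim
    refine ⟨lim m, ?_, fun u hu => hu hm⟩
    intro x hx
    obtain ⟨z, hz, hxz, hmz⟩ := hdir x hx (lim m) hm
    rcases z with ⟨j', k'⟩ | m' | _
    · exact absurd hmz lim_pt
    · rw [lim_lim.1 hmz]
      exact hxz
    · exact absurd hz hgr
  push Not at hlim
  have hpt : ∀ x ∈ d, ∃ j k, x = pt j k := by
    intro x hx
    rcases x with ⟨j', k'⟩ | m' | _
    · exact ⟨_, _, rfl⟩
    · exact absurd hx (hlim _)
    · exact absurd hx hgr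
  obtain ⟨x₀, hx₀⟩ := hne
  obtain ⟨j, k₀, rfl⟩ := hpt x₀ hx₀
  have hcol : ∀ x ∈ d, ∃ k, x = pt j k := by
    intro x hx
    obtain ⟨j', k', rfl⟩ := hpt x hx
    obtain ⟨z, hz, h1, h2⟩ := hdir _ hx _ hx₀
    obtain ⟨j'', k'', rfl⟩ := hpt z hz
    have h3 := (pt_pt.1 h1).1
    have h4 := (pt_pt.1 h2).1
    exact ⟨k', by rw [h3, h4]⟩
  have hd : d = pt j '' {k | pt j k ∈ d} := by
    ext x
    constructor
    · intro hx
      obtain ⟨k, rfl⟩ := hcol x hx
      exact ⟨k, hx, rfl⟩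
    · rintro ⟨k, hk, rfl⟩
      exact hk
  by_cases hb : ∀ n, ∃ k ∈ {k | pt j k ∈ d}, n < k
  · refine ⟨lim j, ?_⟩
    rw [hd]
    exact lub_col j _ hb
  · push Not at hb
    obtain ⟨n, hn⟩ := hb
    obtain ⟨k, hk, hmax⟩ := Set.exists_max_image {k | pt j k ∈ d} id
      ((Set.finite_Iic n).subset fun k hk => hn k hk) ⟨k₀, hx₀⟩
    refine ⟨pt j k, ?_, fun u hu => hu hk⟩
    intro x hx
    obtain ⟨k', rfl⟩ := hcol x hx
    exact pt_pt.2 ⟨rfl, hmax k' hx⟩

/-- Scott open sets -/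
def SO (U : Set JT) : Prop := IsUpperSet U ∧ DirSupInacc U

theorem so_iff {U : Set (WithScott JT)} : IsOpen U ↔ SO U := by
  have := IsScott.isOpen_iff_isUpperSet_and_dirSupInaccOn (α := WithScott JT) (D := univ) (s := U)
  rw [this, dirSupInaccOn_univ]
  rfl

theorem tail {U : Set JT} (hU : SO U) {x : JT} (hx : x ∈ U) (hne : x ≠ gr) :
    ∃ N, ∀ m, N ≤ m → lim m ∈ U := by
  have h1 : ∃ j k, pt j k ∈ U := by
    rcases x with ⟨j, k⟩ | m | _
    · exact ⟨j, k, hx⟩
    · have h2 : IsLUB (pt m '' univ) (lim m) := lub_col m univ (fun n => ⟨n + 1, trivial, by omega⟩)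
      obtain ⟨_, ⟨k, -, rfl⟩, h4⟩ := hU.2 ((univ_nonempty (α := ℕ)).image _) (dir_col m univ) h2 hx
      exact ⟨m, k, h4⟩
    · exact absurd rfl hne
  obtain ⟨j, k, h⟩ := h1
  exact ⟨k, fun m hm => hU.1 (pt_lim.2 (Or.inr hm)) h⟩

/-- the compatible topology: the Scott open sets different from `{gr}` -/
@[instance_reducible]
def top : TopologicalSpace JT where
  IsOpen U := SO U ∧ (U.Nonempty → ∃ x ∈ U, x ≠ gr)
  isOpen_univ := ⟨so_iff.1 isOpen_univ, fun _ => ⟨lim 0, trivial, by simp⟩⟩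
  isOpen_inter U V hU hV := by
    refine ⟨so_iff.1 ((so_iff.2 hU.1).inter (so_iff.2 hV.1)), ?_⟩
    rintro ⟨z, hzU, hzV⟩
    obtain ⟨x, hx, hx'⟩ := hU.2 ⟨z, hzU⟩
    obtain ⟨y, hy, hy'⟩ := hV.2 ⟨z, hzV⟩
    obtain ⟨N, hN⟩ := tail hU.1 hx hx'
    obtain ⟨M, hM⟩ := tail hV.1 hy hy'
    exact ⟨lim (max N M), ⟨hN _ (le_max_left _ _), hM _ (le_max_right _ _)⟩, by simp⟩
  isOpen_sUnion S hS := by
    refine ⟨so_iff.1 (isOpen_sUnion fun U hU => so_iff.2 (hS U hU).1), ?_⟩
    rintro ⟨z, U, hU, hz⟩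
    obtain ⟨x, hx, hx'⟩ := (hS U hU).2 ⟨z, hz⟩
    exact ⟨x, ⟨U, hU, hx⟩, hx'⟩

theorem closed_iff {C : Set JT} : @IsClosed JT top C ↔ SO Cᶜ ∧ (Cᶜ.Nonempty → ∃ x ∉ C, x ≠ gr) := by
  rw [← @isOpen_compl_iff JT C top]
  rfl

theorem lower {C : Set JT} (h : SO Cᶜ) : IsLowerSet C := isUpperSet_compl.1 h.1

theorem dsup {C : Set JT} (h : SO Cᶜ) : DirSupClosed C := dirSupInacc_compl.1 h.2

theorem so_compl {C : Set JT} (h1 : IsLowerSet C) (h2 : DirSupClosed C) : SO Cᶜ :=
  ⟨isUpperSet_compl.2 h1, dirSupInacc_compl.2 h2⟩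

theorem closed_Iic (x : JT) : @IsClosed JT top (Iic x) := by
  rw [closed_iff]
  refine ⟨so_compl (isLowerSet_Iic x) (dirSupClosed_Iic x), ?_⟩
  rintro ⟨z, hz⟩
  rcases x with ⟨j, k⟩ | m | _
  · exact ⟨lim 0, lim_pt (m := 0) (j := j) (k := k), by simp⟩
  · refine ⟨lim (m + 1), fun h => ?_, by simp⟩
    have := lim_lim.1 h
    omega
  · exact absurd (le_gr z) hz

theorem closure_eq (x : JT) : @closure JT top {x} = Iic x := by
  refine subset_antisymm (@closure_minimal JT top _ _ (singleton_subset_iff.2 (le_refl x)) (closed_Iic x)) ?_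
  intro y hy
  have h1 : @IsClosed JT top (@closure JT top {x}) := @isClosed_closure JT top _
  exact lower (closed_iff.1 h1).1 hy (@subset_closure JT top _ _ rfl)

theorem t0 : @T0Space JT top := by
  refine @T0Space.mk JT top ?_
  intro x y hxy
  have h := (@inseparable_iff_closure_eq JT top x y).1 hxy
  rw [closure_eq, closure_eq] at h
  exact Iic_injective h

theorem sober : @QuasiSober JT top := by
  refine @QuasiSober.mk JT top ?_
  intro C hirr hC
  have hC' := closed_iff.1 hC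
  have hlow := lower hC'.1
  have hsup := dsup hC'.1
  suffices h : ∃ x ∈ C, C ⊆ Iic x by
    obtain ⟨x, hx, hx'⟩ := h
    refine ⟨x, ?_⟩
    show @closure JT top {x} = C
    rw [closure_eq]
    exact subset_antisymm (fun y hy => hlow hy hx) hx'
  by_cases hgr : gr ∈ C
  · exact ⟨gr, hgr, fun x _ => le_gr x⟩
  obtain ⟨y, hy, hy'⟩ := hC'.2 ⟨gr, hgr⟩
  obtain ⟨N, hN⟩ := tail hC'.1 hy hy'
  by_contra hcon
  push Not at hcon
  -- no maximal points of finite type
  have hmax : ∀ j k, pt j k ∈ C → ∃ w ∈ C, pt j k < w := by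
    intro j k hz
    by_contra hm
    push Not at hm
    have h1 : @IsClosed JT top (C \ {pt j k}) := by
      rw [closed_iff]
      refine ⟨so_compl ?_ ?_, fun _ => ⟨y, fun h => hy h.1, hy'⟩⟩
      · rintro a b hba ⟨ha, ha'⟩
        refine ⟨hlow hba ha, fun hb => ?_⟩
        rw [mem_singleton_iff] at hb
        rw [hb] at hba
        rcases eq_or_lt_of_le hba with h2 | h2
        · exact ha' h2.symm
        · exact hm a ha h2
      · intro d hd hne hdir a ha
        refine ⟨hsup (fun x hx => (hd hx).1) hne hdir ha, fun hak => ?_⟩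
        rw [mem_singleton_iff] at hak
        subst hak
        have h3 : ∀ x ∈ d, ∃ i, i < k ∧ x = pt j i := by
          intro x hx
          have h4 : x ≤ pt j k := ha.1 hx
          have h5 : x ≠ pt j k := (hd hx).2
          rcases x with ⟨j', k'⟩ | m | _
          · have h6 := pt_pt.1 h4
            refine ⟨k', ?_, by rw [h6.1]⟩
            refine lt_of_le_of_ne h6.2 fun h7 => h5 ?_
            rw [h6.1, h7]
          · exact absurd h4 lim_pt
          · exact absurd h4 gr_pt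
        obtain ⟨x₁, hx₁⟩ := hne
        obtain ⟨i₁, hi₁, -⟩ := h3 x₁ hx₁
        have h8 : pt j k ≤ pt j (k - 1) := ha.2 (by
          intro x hx
          obtain ⟨i, hi, rfl⟩ := h3 x hx
          exact pt_pt.2 ⟨rfl, by omega⟩)
        have := (pt_pt.1 h8).2
        omega
    have h9 := (@isPreirreducible_iff_isClosed_union_isClosed JT top C).1 hirr.2 _ _ h1
      (closed_Iic (pt j k)) (by
        intro x hx
        by_cases hxk : x = pt j k
        · exact Or.inr (le_of_eq hxk)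
        · exact Or.inl ⟨hx, hxk⟩)
    rcases h9 with h9 | h9
    · exact (h9 hz).2 rfl
    · exact hcon _ hz h9
  have hbelow : ∀ x ∈ C, ∃ m, lim m ∈ C ∧ x ≤ lim m := by
    intro x hx
    rcases x with ⟨j, k⟩ | m | _
    · by_contra hno
      push Not at hno
      by_cases hb : ∀ n, ∃ i ∈ {i | pt j i ∈ C}, n < i
      · obtain ⟨i₀, hi₀, -⟩ := hb 0
        have h0 : (pt j '' {i | pt j i ∈ C}).Nonempty := ⟨pt j i₀, i₀, hi₀, rfl⟩
        have h1 : lim j ∈ C := hsup (by rintro _ ⟨i, hi, rfl⟩; exact hi) h0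
          (dir_col j _) (lub_col j _ hb)
        exact hno j h1 (pt_lim.2 (Or.inl rfl))
      · push Not at hb
        obtain ⟨n, hn⟩ := hb
        obtain ⟨i, hi, hmaxi⟩ := Set.exists_max_image {i | pt j i ∈ C} id
          ((Set.finite_Iic n).subset fun k hk => hn k hk) ⟨k, hx⟩
        obtain ⟨w, hw, hlt⟩ := hmax j i hi
        rcases w with ⟨j', i'⟩ | m | _
        · have h2 := pt_pt.1 hlt.le
          have h3 : i' ≤ i := hmaxi i' (by
            show pt j i' ∈ C
            rw [h2.1]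
            exact hw)
          have h4 : pt j i = pt j' i' := by rw [h2.1, le_antisymm h2.2 h3]
          exact hlt.ne h4
        · have h5 : pt j k ≤ pt j i := pt_pt.2 ⟨rfl, hmaxi k hx⟩
          exact hno m hw (h5.trans hlt.le)
        · exact hgr hw
    · exact ⟨m, hx, le_refl _⟩
    · exact absurd hx hgr
  classical
  obtain ⟨z, hz, hCz⟩ := (@isIrreducible_iff_sUnion_isClosed JT top C).1 hirr
    (((Finset.range N).filter fun m => lim m ∈ C).image fun m => Iic (lim m)) (by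
      intro z hz
      rw [Finset.mem_image] at hz
      obtain ⟨m, -, rfl⟩ := hz
      exact closed_Iic _) (by
      intro x hx
      obtain ⟨m, hm, hxm⟩ := hbelow x hx
      refine ⟨Iic (lim m), ?_, hxm⟩
      rw [Finset.mem_coe, Finset.mem_image]
      refine ⟨m, ?_, rfl⟩
      rw [Finset.mem_filter, Finset.mem_range]
      refine ⟨?_, hm⟩
      by_contra hNm
      exact hN m (not_lt.1 hNm) hm)
  rw [Finset.mem_image] at hz
  obtain ⟨m, hm, rfl⟩ := hz
  exact hcon _ (Finset.mem_filter.1 hm).2 hCz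

/-- the limits above `n`, and the greatest element -/
def tl (n : ℕ) : Set (WithScott JT) := {x | x = gr ∨ ∃ m, n ≤ m ∧ x = lim m}

theorem tl_compact (n : ℕ) : IsCompact (tl n) := by
  refine isCompact_of_finite_subcover fun {κ} U hU hcov => ?_
  obtain ⟨i, hi⟩ := mem_iUnion.1 (hcov (show (lim n : WithScott JT) ∈ tl n from Or.inr ⟨n, le_refl n, rfl⟩))
  obtain ⟨N, hN⟩ := tail (so_iff.1 (hU i)) hi (by simp)
  have h1 : ∀ m : ℕ, ∃ i, n ≤ m → (lim m : WithScott JT) ∈ U i := by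
    intro m
    by_cases hm : n ≤ m
    · obtain ⟨i, hi⟩ := mem_iUnion.1 (hcov (show (lim m : WithScott JT) ∈ tl n from Or.inr ⟨m, hm, rfl⟩))
      exact ⟨i, fun _ => hi⟩
    · exact ⟨i, fun h => absurd h hm⟩
  choose f hf using h1
  classical
  refine ⟨insert i ((Finset.range N).image f), ?_⟩
  intro x hx
  rw [mem_iUnion₂]
  rcases hx with rfl | ⟨m, hm, rfl⟩
  · exact ⟨i, Finset.mem_insert_self _ _, (so_iff.1 (hU i)).1 (le_gr (lim n)) hi⟩
  · by_cases hmN : N ≤ m
    · exact ⟨i, Finset.mem_insert_self _ _, hN m hmN⟩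
    · exact ⟨f m, Finset.mem_insert_of_mem (Finset.mem_image_of_mem _ (Finset.mem_range.2 (not_le.1 hmN))),
        hf m hm⟩

theorem so_gr : IsOpen ({gr} : Set (WithScott JT)) := by
  rw [so_iff]
  constructor
  · rintro a b hab ha
    have ha' : a = gr := ha
    rw [ha'] at hab
    exact gr_le hab
  · intro d hne hdir a ha hgr
    have hgr' : a = gr := hgr
    subst hgr'
    by_contra hcon
    have hgrd : gr ∉ d := fun h => hcon ⟨gr, h, rfl⟩
    obtain ⟨x, hx⟩ := dcpo d hne hdir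
    have hxg : x = gr := hx.unique ha
    subst hxg
    -- a directed set without `gr` has an upper bound below `gr`
    by_cases hlim : ∃ m, lim m ∈ d
    · obtain ⟨m, hm⟩ := hlim
      have h1 : gr ≤ lim m := ha.2 (by
        intro x hx
        obtain ⟨z, hz, hxz, hmz⟩ := hdir x hx (lim m) hm
        rcases z with ⟨j', k'⟩ | m' | _
        · exact absurd hmz lim_pt
        · rw [lim_lim.1 hmz]
          exact hxz
        · exact absurd hz hgrd)
      exact gr_lim h1
    · push Not at hlim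
      have hpt : ∀ x ∈ d, ∃ j k, x = pt j k := by
        intro x hx
        rcases x with ⟨j', k'⟩ | m' | _
        · exact ⟨_, _, rfl⟩
        · exact absurd hx (hlim _)
        · exact absurd hx hgrd
      obtain ⟨x₀, hx₀⟩ := hne
      obtain ⟨j, k₀, rfl⟩ := hpt x₀ hx₀
      have h1 : gr ≤ lim j := ha.2 (by
        intro x hx
        obtain ⟨j', k', rfl⟩ := hpt x hx
        obtain ⟨z, hz, h1, h2⟩ := hdir _ hx _ hx₀
        obtain ⟨j'', k'', rfl⟩ := hpt z hz
        have h3 := (pt_pt.1 h1).1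
        have h4 := (pt_pt.1 h2).1
        exact pt_lim.2 (Or.inl (h3.trans h4.symm)))
      exact gr_lim h1

/-- first projection -/
def q1 {Q : Type u} [PartialOrder Q] (z : WithScott (JT × Q)) : WithScott JT := z.1

/-- the inclusion of a slice -/
def qi {Q : Type u} [PartialOrder Q] (q : Q) (x : WithScott JT) : WithScott (JT × Q) := (x, q)

theorem cont_q1 {Q : Type u} [PartialOrder Q] :
    Continuous (q1 : WithScott (JT × Q) → WithScott JT) := by
  refine (IsScott.scottContinuousOn_iff_continuous (D := univ) (fun _ _ _ => trivial)).1 ?_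
  intro d _ _ _ a ha
  exact (isLUB_prod.1 ha).1

theorem cont_qi {Q : Type u} [PartialOrder Q] (q : Q) : Continuous (qi q) := by
  refine (IsScott.scottContinuousOn_iff_continuous (D := univ) (fun _ _ _ => trivial)).1 ?_
  intro d _ hne _ a ha
  constructor
  · rintro _ ⟨x, hx, rfl⟩
    exact ⟨ha.1 hx, le_refl _⟩
  · intro z hz
    obtain ⟨x₀, hx₀⟩ := hne
    exact ⟨ha.2 fun x hx => (hz ⟨x, hx, rfl⟩).1, (hz ⟨x₀, hx₀, rfl⟩).2⟩

theorem not_wf (Q : Type u) [PartialOrder Q] [Nonempty Q] : ¬ WellFiltered (WithScott (JT × Q)) := by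
  intro h
  obtain ⟨q⟩ := ‹Nonempty Q›
  have hupper : ∀ U : Set (WithScott (JT × Q)), IsOpen U → IsUpperSet U := fun U hU =>
    IsScott.isUpperSet_of_isOpen (D := univ) hU
  obtain ⟨K, ⟨n, rfl⟩, hK⟩ := h.2 (range fun n => {z : WithScott (JT × Q) | ∃ x ∈ tl n, qi q x ≤ z})
    (range_nonempty _) (by
      rintro _ ⟨n, rfl⟩ _ ⟨m, rfl⟩
      refine ⟨_, ⟨max n m, rfl⟩, ?_, ?_⟩
      · rintro z ⟨x, hx, hxz⟩
        refine ⟨x, ?_, hxz⟩
        rcases hx with rfl | ⟨l, hl, rfl⟩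
        · exact Or.inl rfl
        · exact Or.inr ⟨l, (le_max_left _ _).trans hl, rfl⟩
      · rintro z ⟨x, hx, hxz⟩
        refine ⟨x, ?_, hxz⟩
        rcases hx with rfl | ⟨l, hl, rfl⟩
        · exact Or.inl rfl
        · exact Or.inr ⟨l, (le_max_right _ _).trans hl, rfl⟩) (by
      rintro _ ⟨n, rfl⟩
      refine ⟨?_, ?_⟩
      · refine isCompact_of_finite_subcover fun {κ} U hU hcov => ?_
        obtain ⟨t, ht⟩ := ((tl_compact n).image (cont_qi q)).elim_finite_subcover U hU (by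
          rintro _ ⟨x, hx, rfl⟩
          exact hcov ⟨x, hx, le_refl _⟩)
        refine ⟨t, ?_⟩
        rintro z ⟨x, hx, hxz⟩
        have h3 := ht ⟨x, hx, rfl⟩
        rw [mem_iUnion₂] at h3 ⊢
        obtain ⟨k, hk, hak⟩ := h3
        exact ⟨k, hk, hupper _ (hU k) hxz hak⟩
      · refine ⟨{U | ∃ y : WithScott (JT × Q), (¬ ∃ x ∈ tl n, qi q x ≤ y) ∧ U = (Iic y)ᶜ}, ?_, ?_⟩
        · rintro _ ⟨y, -, rfl⟩
          exact (IsScott.isClosed_iff_isLowerSet_and_dirSupClosed.2
            ⟨isLowerSet_Iic _, dirSupClosed_Iic _⟩ : IsClosed (Iic y)).isOpen_compl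
        · ext z
          rw [mem_sInter]
          constructor
          · rintro ⟨x, hx, hxz⟩ _ ⟨y, hy, rfl⟩ hzy
            exact hy ⟨x, hx, le_trans hxz hzy⟩
          · intro hz
            by_contra hzK
            exact hz _ ⟨z, hzK, rfl⟩ (le_refl z))
    _ (so_gr.preimage cont_q1) (by
      intro z hz
      rw [mem_sInter] at hz
      show z.1 = gr
      obtain ⟨x, hx, hxz⟩ := hz _ ⟨0, rfl⟩
      have h1 : x ≤ z.1 := hxz.1
      rcases hx with rfl | ⟨m, -, rfl⟩
      · exact gr_le h1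
      · rcases h2 : z.1 with ⟨j, k⟩ | m' | _
        · rw [h2] at h1
          exact absurd h1 lim_pt
        · obtain ⟨x, hx, hxz⟩ := hz _ ⟨m' + 1, rfl⟩
          have h1 : x ≤ z.1 := hxz.1
          rw [h2] at h1
          rcases hx with rfl | ⟨m, hm, rfl⟩
          · exact absurd h1 gr_lim
          · have := lim_lim.1 h1
            omega
        · rfl)
  have h1 : qi q (lim n) ∈ (q1 : WithScott (JT × Q) → WithScott JT) ⁻¹' {gr} :=
    hK ⟨lim n, Or.inr ⟨n, le_refl n, rfl⟩, le_refl _⟩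
  have h2 : lim n = gr := h1
  exact absurd h2 (by simp)

end JT

/-- There is a dcpo `P` which carries a topology that is compatible with the order (the closure of
`{x}` is the set of all `y ≤ x`), sober and well-filtered, and for which the Scott topology of
`P × Q` is not well-filtered for any nonempty partially ordered set `Q`. -/
theorem result : ∃ (P : Type) (_ : PartialOrder P), IsDcpo P ∧
    (∃ t : TopologicalSpace P, (∀ x : P, @closure P t {x} = Iic x) ∧
      @QuasiSober P t ∧ @WellFiltered P t) ∧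
    ∀ (Q : Type u) [PartialOrder Q] [Nonempty Q], ¬ WellFiltered (WithScott (P × Q)) := by
  refine ⟨JT, inferInstance, JT.dcpo, ⟨JT.top, JT.closure_eq, JT.sober, ?_⟩, fun Q _ _ => JT.not_wf Q⟩
  exact @wellFiltered_of_sober JT JT.top JT.t0 JT.sober

end Pool.Agent.Results.MP_70096d_gt.CompatibleFails
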