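import Mathlib

set_option autoImplicit false

open Set Topology

universe u v

namespace Pool.Agent.Results.MP_70096d_gt.ScottProduct

/-- A `T₀` space is well-filtered if, for every (nonempty) filtered family of compact saturated
sets and every open set `U` containing the intersection of the family, some member of the family is
contained in `U`. A set is saturated if it is an intersection of open sets. -/
def WellFiltered (X : Type u) [TopologicalSpace X] : Prop :=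
  T0Space X ∧ ∀ 𝒦 : Set (Set X), 𝒦.Nonempty → DirectedOn (· ⊇ ·) 𝒦 →
    (∀ K ∈ 𝒦, IsCompact K ∧ ∃ 𝒰 : Set (Set X), (∀ U ∈ 𝒰, IsOpen U) ∧ K = ⋂₀ 𝒰) →
    ∀ U : Set X, IsOpen U → ⋂₀ 𝒦 ⊆ U → ∃ K ∈ 𝒦, K ⊆ U

section aux

variable {P : Type u} [PartialOrder P]

theorem upper_of_saturated {K : Set (WithScott P)}
    (h : ∃ 𝒰 : Set (Set (WithScott P)), (∀ U ∈ 𝒰, IsOpen U) ∧ K = ⋂₀ 𝒰) : IsUpperSet K := by
  obtain ⟨𝒰, h1, rfl⟩ := h
  intro a b hab ha
  rw [mem_sInter] at ha ⊢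
  intro U hU
  exact IsScott.isUpperSet_of_isOpen (D := univ) (h1 U hU) hab (ha U hU)

theorem isClosed_Iic' (x : WithScott P) : IsClosed (Iic x) :=
  IsScott.isClosed_iff_isLowerSet_and_dirSupClosed.2 ⟨isLowerSet_Iic _, dirSupClosed_Iic _⟩

theorem saturated_of_upper {K : Set (WithScott P)} (h : IsUpperSet K) :
    ∃ 𝒰 : Set (Set (WithScott P)), (∀ U ∈ 𝒰, IsOpen U) ∧ K = ⋂₀ 𝒰 := by
  refine ⟨{U | ∃ y, y ∉ K ∧ U = (Iic y)ᶜ}, ?_, ?_⟩
  · rintro _ ⟨y, -, rfl⟩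
    exact (isClosed_Iic' y).isOpen_compl
  · ext x
    rw [mem_sInter]
    constructor
    · rintro hx _ ⟨y, hy, rfl⟩ hxy
      exact hy (h hxy hx)
    · intro hx
      by_contra hxK
      exact hx _ ⟨x, hxK, rfl⟩ (le_refl x)

/-- the basic consequence of well-filteredness -/
theorem wf_lemma (hwf : WellFiltered (WithScott P)) {ι : Type v} [Nonempty ι]
    (A B : ι → Set (WithScott P)) (hA : ∀ i, IsCompact (A i)) (hB : ∀ i, IsClosed (B i))
    (hd : ∀ i j, ∃ k, A k ⊆ A i ∧ A k ⊆ A j ∧ B k ⊆ B i ∧ B k ⊆ B j)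
    (hne : ∀ i, (A i ∩ B i).Nonempty) :
    ∃ x, (∀ i, x ∈ B i) ∧ ∀ i, ∃ a ∈ A i, a ≤ x := by
  by_contra hcon
  push Not at hcon
  have hopen : IsOpen (⋂ i, B i)ᶜ := (isClosed_iInter hB).isOpen_compl
  obtain ⟨K, ⟨i, rfl⟩, hi⟩ := hwf.2 (range fun i => {x | ∃ a ∈ A i, a ≤ x}) (range_nonempty _) (by
    rintro _ ⟨i, rfl⟩ _ ⟨j, rfl⟩
    obtain ⟨k, h1, h2, -, -⟩ := hd i j
    refine ⟨_, ⟨k, rfl⟩, ?_, ?_⟩
    · rintro x ⟨a, ha, hax⟩
      exact ⟨a, h1 ha, hax⟩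
    · rintro x ⟨a, ha, hax⟩
      exact ⟨a, h2 ha, hax⟩) (by
    rintro _ ⟨i, rfl⟩
    refine ⟨?_, saturated_of_upper ?_⟩
    · refine isCompact_of_finite_subcover fun {κ} U hU hcov => ?_
      obtain ⟨t, ht⟩ := (hA i).elim_finite_subcover U hU (fun a ha => hcov ⟨a, ha, le_refl a⟩)
      refine ⟨t, ?_⟩
      rintro x ⟨a, ha, hax⟩
      have h3 := ht ha
      simp only [mem_iUnion] at h3 ⊢
      obtain ⟨k, hk, hak⟩ := h3
      exact ⟨k, hk, IsScott.isUpperSet_of_isOpen (D := univ) (hU k) hax hak⟩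
    · rintro x y hxy ⟨a, ha, hax⟩
      exact ⟨a, ha, hax.trans hxy⟩) (⋂ i, B i)ᶜ hopen (by
    intro x hx hxB
    rw [mem_iInter] at hxB
    obtain ⟨i, hi⟩ := hcon x hxB
    obtain ⟨a, ha, hax⟩ := mem_sInter.1 hx _ ⟨i, rfl⟩
    exact hi a ha hax)
  -- compactness of `A i`
  have h4 : A i ⊆ ⋃ j, (B j)ᶜ := by
    intro a ha
    have := hi ⟨a, ha, le_refl a⟩
    rw [mem_compl_iff, mem_iInter] at this
    push Not at this
    obtain ⟨j, hj⟩ := this
    exact mem_iUnion.2 ⟨j, hj⟩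
  have hdir : Directed (· ⊆ ·) (fun j => (B j)ᶜ) := by
    intro j j'
    obtain ⟨k, -, -, h1, h2⟩ := hd j j'
    exact ⟨k, compl_subset_compl.2 h1, compl_subset_compl.2 h2⟩
  obtain ⟨j, hj⟩ := (hA i).elim_directed_cover _ (fun j => (hB j).isOpen_compl) h4 hdir
  obtain ⟨k, h1, -, -, h3⟩ := hd i j
  obtain ⟨a, ha, haB⟩ := hne k
  exact hj (h1 ha) (h3 haB)

/-- minimal closed sets meeting all members of a family of compact sets -/
theorem exists_minimal {X : Type u} [TopologicalSpace X] (𝒦 : Set (Set X))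
    (hK : ∀ K ∈ 𝒦, IsCompact K) (C₀ : Set X) (hC₀ : IsClosed C₀) (hne : ∀ K ∈ 𝒦, (K ∩ C₀).Nonempty) :
    ∃ C ⊆ C₀, IsClosed C ∧ (∀ K ∈ 𝒦, (K ∩ C).Nonempty) ∧
      ∀ C' ⊆ C, IsClosed C' → (∀ K ∈ 𝒦, (K ∩ C').Nonempty) → C ⊆ C' := by
  obtain ⟨C, hC1, hC2⟩ := zorn_superset_nonempty {C : Set X | IsClosed C ∧ ∀ K ∈ 𝒦, (K ∩ C).Nonempty}
    (by
      intro c hc hchain hcne
      refine ⟨⋂₀ c, ⟨isClosed_sInter fun s hs => (hc hs).1, ?_⟩, fun s hs => sInter_subset_of_mem hs⟩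
      intro K hKm
      by_contra hemp
      rw [not_nonempty_iff_eq_empty] at hemp
      have hcne' : Nonempty c := hcne.to_subtype
      have h1 : K ⊆ ⋃ s : c, (s.1)ᶜ := by
        intro x hx
        by_contra hcon
        have : x ∈ K ∩ ⋂₀ c := by
          refine ⟨hx, mem_sInter.2 fun s hs => ?_⟩
          by_contra hxs
          exact hcon (mem_iUnion.2 ⟨⟨s, hs⟩, hxs⟩)
        rw [hemp] at this
        exact this
      have hdir : Directed (· ⊆ ·) (fun s : c => (s.1)ᶜ) := by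
        intro s t
        rcases hchain.total s.2 t.2 with h | h
        · exact ⟨s, subset_rfl, compl_subset_compl.2 h⟩
        · exact ⟨t, compl_subset_compl.2 h, subset_rfl⟩
      obtain ⟨s, hs⟩ := (hK K hKm).elim_directed_cover _ (fun s : c => (hc s.2).1.isOpen_compl) h1 hdir
      obtain ⟨x, hx, hxs⟩ := (hc s.2).2 K hKm
      exact hs hx hxs) C₀ ⟨hC₀, hne⟩
  refine ⟨C, hC1, hC2.1.1, hC2.1.2, ?_⟩
  intro C' hC' hcl hm
  exact hC2.2 ⟨hcl, hm⟩ hC'

end aux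

section main

theorem cont_of_pres {α : Type u} {β : Type v} [PartialOrder α] [PartialOrder β]
    (f : WithScott α → WithScott β) (hf : ScottContinuous f) : Continuous f := by
  rw [← scottContinuousOn_univ] at hf
  exact (IsScott.scottContinuousOn_iff_continuous (D := univ) (fun _ _ _ => trivial)).1 hf

variable {P : Type u} {Q : Type v} [PartialOrder P] [PartialOrder Q]

/-- first projection -/
def p1 (z : WithScott (P × Q)) : WithScott P := z.1

/-- second projection -/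
def p2 (z : WithScott (P × Q)) : WithScott Q := z.2

/-- pairing -/
def pr (x : WithScott P) (y : WithScott Q) : WithScott (P × Q) := (x, y)

theorem pr_le {x x' : WithScott P} {y y' : WithScott Q} : pr x y ≤ pr x' y' ↔ x ≤ x' ∧ y ≤ y' :=
  Iff.rfl

theorem cont_p1 : Continuous (p1 : WithScott (P × Q) → WithScott P) := by
  refine cont_of_pres _ ?_
  intro d _ _ a ha
  exact (isLUB_prod.1 ha).1

theorem cont_p2 : Continuous (p2 : WithScott (P × Q) → WithScott Q) := by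
  refine cont_of_pres _ ?_
  intro d _ _ a ha
  exact (isLUB_prod.1 ha).2

theorem cont_left (y : WithScott Q) : Continuous (fun x : WithScott P => pr x y) := by
  refine cont_of_pres _ ?_
  intro d hd _ a ha
  constructor
  · rintro _ ⟨x, hx, rfl⟩
    exact pr_le.2 ⟨ha.1 hx, le_refl _⟩
  · intro z hz
    obtain ⟨x₀, hx₀⟩ := hd
    exact ⟨ha.2 fun x hx => (hz ⟨x, hx, rfl⟩).1, (hz ⟨x₀, hx₀, rfl⟩).2⟩

theorem cont_right (x : WithScott P) : Continuous (fun y : WithScott Q => pr x y) := by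
  refine cont_of_pres _ ?_
  intro d hd _ a ha
  constructor
  · rintro _ ⟨y, hy, rfl⟩
    exact pr_le.2 ⟨le_refl _, ha.1 hy⟩
  · intro z hz
    obtain ⟨y₀, hy₀⟩ := hd
    exact ⟨(hz ⟨y₀, hy₀, rfl⟩).1, ha.2 fun y hy => (hz ⟨y, hy, rfl⟩).2⟩

theorem t0 {α : Type u} [i : PartialOrder α] : T0Space (WithScott α) :=
  @IsScott.instT0Space (WithScott α) i _ _

theorem main (hP : WellFiltered (WithScott P)) (hQ : WellFiltered (WithScott Q)) :
    WellFiltered (WithScott (P × Q)) := by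
  refine ⟨t0, ?_⟩
  intro 𝒦 hne hdir hK U hU hsub
  by_contra hcon
  push Not at hcon
  have hmeet : ∀ K ∈ 𝒦, (K ∩ Uᶜ).Nonempty := by
    intro K hKm
    obtain ⟨x, hx, hxU⟩ := not_subset.1 (hcon K hKm)
    exact ⟨x, hx, hxU⟩
  obtain ⟨C, hCU, hC, hCm, hmin⟩ := exists_minimal 𝒦 (fun K h => (hK K h).1) Uᶜ hU.isClosed_compl hmeet
  have hlow : IsLowerSet C := IsScott.isLowerSet_of_isClosed hC
  have : Nonempty 𝒦 := hne.to_subtype
  have hupp : ∀ K ∈ 𝒦, IsUpperSet K := fun K h => upper_of_saturated (hK K h).2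
  -- the generic points of the projections
  obtain ⟨t, htC, ht⟩ := wf_lemma hP (ι := 𝒦) (fun K => p1 '' (K.1 ∩ C)) (fun _ => closure (p1 '' C))
    (fun K => ((hK K.1 K.2).1.inter_right hC).image cont_p1) (fun _ => isClosed_closure)
    (by
      intro K K'
      obtain ⟨K'', h1, h2, h3⟩ := hdir K.1 K.2 K'.1 K'.2
      exact ⟨⟨K'', h1⟩, image_mono (inter_subset_inter_left _ h2),
        image_mono (inter_subset_inter_left _ h3), subset_rfl, subset_rfl⟩)
    (by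
      intro K
      obtain ⟨z, hz, hzC⟩ := hCm K.1 K.2
      exact ⟨p1 z, ⟨z, ⟨hz, hzC⟩, rfl⟩, subset_closure ⟨z, hzC, rfl⟩⟩)
  obtain ⟨s, hsC, hs⟩ := wf_lemma hQ (ι := 𝒦) (fun K => p2 '' (K.1 ∩ C)) (fun _ => closure (p2 '' C))
    (fun K => ((hK K.1 K.2).1.inter_right hC).image cont_p2) (fun _ => isClosed_closure)
    (by
      intro K K'
      obtain ⟨K'', h1, h2, h3⟩ := hdir K.1 K.2 K'.1 K'.2
      exact ⟨⟨K'', h1⟩, image_mono (inter_subset_inter_left _ h2),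
        image_mono (inter_subset_inter_left _ h3), subset_rfl, subset_rfl⟩)
    (by
      intro K
      obtain ⟨z, hz, hzC⟩ := hCm K.1 K.2
      exact ⟨p2 z, ⟨z, ⟨hz, hzC⟩, rfl⟩, subset_closure ⟨z, hzC, rfl⟩⟩)
  have ht' := htC (Classical.arbitrary 𝒦)
  have hs' := hsC (Classical.arbitrary 𝒦)
  -- closed sets meeting all the projections contain the generic points
  have gen1 : ∀ B : Set (WithScott P), IsClosed B → (∀ K ∈ 𝒦, ∃ z ∈ K ∩ C, p1 z ∈ B) → t ∈ B := by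
    intro B hB h
    have h1 := hmin (C ∩ p1 ⁻¹' B) inter_subset_left (hC.inter (hB.preimage cont_p1)) (by
      intro K hKm
      obtain ⟨z, ⟨hz1, hz2⟩, hz3⟩ := h K hKm
      exact ⟨z, hz1, hz2, hz3⟩)
    exact (closure_minimal (image_subset_iff.2 fun z hz => (h1 hz).2) hB) ht'
  have gen2 : ∀ B : Set (WithScott Q), IsClosed B → (∀ K ∈ 𝒦, ∃ z ∈ K ∩ C, p2 z ∈ B) → s ∈ B := by
    intro B hB h
    have h1 := hmin (C ∩ p2 ⁻¹' B) inter_subset_left (hC.inter (hB.preimage cont_p2)) (by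
      intro K hKm
      obtain ⟨z, ⟨hz1, hz2⟩, hz3⟩ := h K hKm
      exact ⟨z, hz1, hz2, hz3⟩)
    exact (closure_minimal (image_subset_iff.2 fun z hz => (h1 hz).2) hB) hs'
  have top1 : ∀ z ∈ C, p1 z ≤ t := by
    have h1 := hmin (C ∩ p1 ⁻¹' (Iic t)) inter_subset_left
      (hC.inter ((isClosed_Iic' t).preimage cont_p1)) (by
      intro K hKm
      obtain ⟨_, ⟨z, ⟨hz, hzC⟩, rfl⟩, hz2⟩ := ht ⟨K, hKm⟩
      exact ⟨z, hz, hzC, hz2⟩)
    exact fun z hz => (h1 hz).2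
  have top2 : ∀ z ∈ C, p2 z ≤ s := by
    have h1 := hmin (C ∩ p2 ⁻¹' (Iic s)) inter_subset_left
      (hC.inter ((isClosed_Iic' s).preimage cont_p2)) (by
      intro K hKm
      obtain ⟨_, ⟨z, ⟨hz, hzC⟩, rfl⟩, hz2⟩ := hs ⟨K, hKm⟩
      exact ⟨z, hz, hzC, hz2⟩)
    exact fun z hz => (h1 hz).2
  have hT : ∀ K ∈ 𝒦, pr t s ∈ K := by
    intro K hKm
    obtain ⟨z, hz, hzC⟩ := hCm K hKm
    have h1 : z ≤ pr t s := ⟨top1 z hzC, top2 z hzC⟩
    exact hupp K hKm h1 hz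
  -- the key step
  have key : ∀ K ∈ 𝒦, ∃ z ∈ K ∩ C, pr t (p2 z) ∈ C := by
    intro K hKm
    have hclosed : IsClosed {x : WithScott P | ∃ z ∈ K ∩ C, pr x (p2 z) ∈ C} := by
      rw [IsScott.isClosed_iff_isLowerSet_and_dirSupClosed]
      refine ⟨?_, ?_⟩
      · rintro x x' hxx ⟨z, hz, hzC⟩
        exact ⟨z, hz, hlow (pr_le.2 ⟨hxx, le_refl _⟩) hzC⟩
      · intro D hDsub hDne hDdir a hlub
        have : Nonempty D := hDne.to_subtype
        obtain ⟨y, hy1, hy2⟩ := wf_lemma hQ (ι := D)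
          (fun d => p2 '' (K ∩ (C ∩ {z | pr d.1 (p2 z) ∈ C}))) (fun d => {y | pr d.1 y ∈ C})
          (fun d => ((hK K hKm).1.inter_right
            (hC.inter (hC.preimage ((cont_right d.1).comp cont_p2)))).image cont_p2)
          (fun d => hC.preimage (cont_right d.1))
          (by
            intro d d'
            obtain ⟨d'', h1, h2, h3⟩ := hDdir d.1 d.2 d'.1 d'.2
            refine ⟨⟨d'', h1⟩, ?_, ?_, ?_, ?_⟩
            · rintro _ ⟨z, ⟨hz1, hz2, hz3⟩, rfl⟩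
              exact ⟨z, ⟨hz1, hz2, hlow (pr_le.2 ⟨h2, le_refl _⟩) hz3⟩, rfl⟩
            · rintro _ ⟨z, ⟨hz1, hz2, hz3⟩, rfl⟩
              exact ⟨z, ⟨hz1, hz2, hlow (pr_le.2 ⟨h3, le_refl _⟩) hz3⟩, rfl⟩
            · intro y hy
              exact hlow (pr_le.2 ⟨h2, le_refl _⟩) hy
            · intro y hy
              exact hlow (pr_le.2 ⟨h3, le_refl _⟩) hy)
          (by
            intro d
            obtain ⟨z, hz, hz2⟩ := hDsub d.2
            exact ⟨p2 z, ⟨z, ⟨hz.1, hz.2, hz2⟩, rfl⟩, hz2⟩)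
        have hay : pr a y ∈ C := by
          have h1 : IsClosed {x : WithScott P | pr x y ∈ C} := hC.preimage (cont_left y)
          have h2 := IsScott.dirSupClosed_of_isClosed h1
          exact h2 (fun d hd => hy1 ⟨d, hd⟩) hDne hDdir hlub
        obtain ⟨_, ⟨z, ⟨hz1, hz2, hz3⟩, rfl⟩, hz4⟩ := hy2 (Classical.arbitrary D)
        exact ⟨z, ⟨hz1, hz2⟩, hlow (pr_le.2 ⟨le_refl _, hz4⟩) hay⟩
    refine gen1 _ hclosed ?_
    intro K' hK'
    obtain ⟨K'', h1, h2, h3⟩ := hdir K hKm K' hK'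
    obtain ⟨z, hz, hzC⟩ := hCm K'' h1
    exact ⟨z, ⟨h3 hz, hzC⟩, z, ⟨h2 hz, hzC⟩, hzC⟩
  have hTC : pr t s ∈ C := gen2 {y | pr t y ∈ C} (hC.preimage (cont_right t)) key
  exact hCU hTC (hsub (mem_sInter.2 hT))

end main

/-- If the Scott topologies of the partially ordered sets `P` and `Q` (for instance, dcpos) are
well-filtered, then the Scott topology of `P × Q` with the coordinatewise order is well-filtered. -/
theorem result : ∀ (P : Type u) (Q : Type v) [PartialOrder P] [PartialOrder Q],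
    WellFiltered (WithScott P) → WellFiltered (WithScott Q) → WellFiltered (WithScott (P × Q)) := by
  intro P Q _ _ hP hQ
  exact main hP hQ

end Pool.Agent.Results.MP_70096d_gt.ScottProduct
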